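import Pool.Agent.U517.AF.Core

/-!
# An automorphism of `P(λ)/Fin` which is not trivial on any uncountable set

For every uncountable cardinal `κ` of the ground model, every condition of the notion of forcing
`P` that adds a Cohen subset of `κ` forces that all infinite cardinals of the ground model are
still cardinals, that `κ` is uncountable, and that the quotient of the power set of `κ` by the ideal
of the finite sets has an automorphism which is not trivial on any set with countable complement.
The automorphism can be taken to be an involution which fixes the classes of all ground model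
sets and is not trivial on any uncountable subset of `κ`: it sends the class of the set named by
`A` to the class of the set of all `x` which belong to the value of `A` at the generic sequence with
the bit number `x` flipped.
-/

namespace Pool.Agent.Results.MP_3937af_lc.NowhereTrivialAutomorphism

open Cardinal Pool.Agent.H65R3.Forc Pool.Agent.W917.Flip Pool.Agent.U517.AF

theorem result (κ : Cardinal.{0}) (hκ : ℵ₀ < κ) :
    ∃ (P : Type) (_ : Preorder P), Nonempty P ∧ ∀ p : P,
      (∀ μ : Cardinal.{0}, ℵ₀ ≤ μ → p ∈ StaysCardinal P μ) ∧
      p ∈ fnot (CtblSet fun _ : K κ => fground True) ∧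
      p ∈ HasAutFin P (K κ) ∧
      p ∈ fex fun T : RelName P (K κ) =>
        fand (IsAut FinSet T) (fand (Symm T) (fand (FixesGround T) (NowhereTrivial T))) := by
  have hX : ¬ #(K κ) ≤ ℵ₀ := by rw [mk_K]; exact not_le.2 hκ
  have hFin : ∀ φ : K κ → Set (Pool.Agent.H631R2.Cond (K κ)),
      FinSet φ = Cov Set.Finite φ := finSet_eq
  have hdAut : Down (IsAut FinSet (TT (K κ))) := down_fand
    (down_fand (down_fall fun _ => down_fex _) (down_fall fun _ => down_fex _))
    (down_fall fun _ => down_fall fun _ => down_fall fun _ => down_fall fun _ => down_fimp _ _)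
  refine ⟨Pool.Agent.H631R2.Cond (K κ), inferInstance, ⟨⟨∅, by simp⟩⟩,
    fun p => ⟨fun μ hμ => staysCardinal hμ p, ?_, ?_, ?_⟩⟩
  · rw [ctblSet_eq]
    refine not_cov_true (I := fun S : Set (K κ) => #S ≤ ℵ₀) ?_ p
    rwa [mk_univ]
  · exact mem_fex_of_mem (TT (K κ)) (down_fand hdAut (down_fall fun _ => down_fimp _ _))
      ⟨isAut_TT ideal_fin hFin p, fin_nontrivial hX p⟩
  · exact mem_fex_of_mem (TT (K κ)) (down_fand hdAut (down_fand
      (down_fall fun _ => down_fall fun _ => down_fimp _ _)
      (down_fand (down_fall fun _ => down_Rel _ _ _) (down_fall fun _ => down_fimp _ _))))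
      ⟨isAut_TT ideal_fin hFin p, symm_TT p, fixes_TT p, unc_nontrivial p⟩

end Pool.Agent.Results.MP_3937af_lc.NowhereTrivialAutomorphism
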